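import Pool.Agent.helper40.SU.SpecA

/-!
# MP_c66272_nt, row su:DUA: the duality principle
-/

set_option autoImplicit false

open Finset

namespace Pool.Agent.SU

theorem DUA : DUA_stmt := by
  intro A B φ Δ hΔ h c
  set b : ℕ → ℝ := fun y => ∑ x ∈ A, c x * φ x y with hb
  have hS : ∑ y ∈ B, (∑ x ∈ A, c x * φ x y) ^ 2 = ∑ y ∈ B, b y ^ 2 := rfl
  rw [hS]
  set S : ℝ := ∑ y ∈ B, b y ^ 2 with hSdef
  have hS0 : 0 ≤ S := Finset.sum_nonneg fun y _ => sq_nonneg _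
  have hC0 : 0 ≤ ∑ x ∈ A, c x ^ 2 := Finset.sum_nonneg fun y _ => sq_nonneg _
  have h1 : S = ∑ x ∈ A, c x * ∑ y ∈ B, b y * φ x y := by
    have h2 : S = ∑ y ∈ B, ∑ x ∈ A, b y * (c x * φ x y) := by
      rw [hSdef]
      refine Finset.sum_congr rfl fun y _ => ?_
      rw [sq, ← Finset.mul_sum]
    rw [h2, Finset.sum_comm]
    refine Finset.sum_congr rfl fun x _ => ?_
    rw [Finset.mul_sum]
    refine Finset.sum_congr rfl fun y _ => ?_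
    ring
  have h3 : S ^ 2 ≤ (∑ x ∈ A, c x ^ 2) * ∑ x ∈ A, (∑ y ∈ B, b y * φ x y) ^ 2 := by
    calc S ^ 2 = (∑ x ∈ A, c x * ∑ y ∈ B, b y * φ x y) ^ 2 := by rw [← h1]
      _ ≤ _ := Finset.sum_mul_sq_le_sq_mul_sq _ _ _
  have h4 : S ^ 2 ≤ (∑ x ∈ A, c x ^ 2) * (Δ * S) := h3.trans (mul_le_mul_of_nonneg_left (h b) hC0)
  rcases hS0.eq_or_lt with h5 | h5
  · rw [← h5]
    positivity
  · have h6 : S * S ≤ (Δ * ∑ x ∈ A, c x ^ 2) * S := by
      calc S * S = S ^ 2 := by ring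
        _ ≤ (∑ x ∈ A, c x ^ 2) * (Δ * S) := h4
        _ = _ := by ring
    exact le_of_mul_le_mul_right h6 h5

end Pool.Agent.SU
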