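import Pool.Agent.helper40.SU.SpecT

/-!
# MP_c66272_nt, row su:TN2: the numbers `n = 2 mod 4` are sums of three squares
-/

set_option autoImplicit false

open Finset

namespace Pool.Agent.SU

theorem TN2 (hTQR : TQR_stmt) : TN2_stmt := by
  intro n hn
  have hn2 : 2 ≤ n := by omega
  haveI : NeZero (4 * n) := ⟨by omega⟩
  have hcop : Nat.Coprime (n - 1) (4 * n) := by
    apply Nat.Coprime.mul_right
    · have h1 : Nat.Coprime (n - 1) (2 ^ 2) := by
        apply Nat.Coprime.pow_right
        rw [Nat.coprime_two_right]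
        exact Nat.odd_iff.2 (by omega)
      exact h1
    · have h1 : Nat.Coprime (n - 1) (n - 1 + 1) := by simp
      rwa [Nat.sub_add_cancel (by omega)] at h1
  have hunit : IsUnit (((n - 1 : ℕ) : ZMod (4 * n))) := (ZMod.isUnit_iff_coprime _ _).2 hcop
  obtain ⟨p, hp1, hp, hpe⟩ := Nat.forall_exists_prime_gt_and_eq_mod hunit (4 * n)
  have hmod : p % (4 * n) = n - 1 := by
    have h1 := (ZMod.natCast_eq_natCast_iff' p (n - 1) (4 * n)).1 hpe
    rw [h1]
    exact Nat.mod_eq_of_lt (by omega)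
  set j : ℕ := p / (4 * n) with hj
  have hpj : p = 4 * n * j + (n - 1) := by
    have := Nat.div_add_mod p (4 * n)
    rw [hmod] at this
    exact this.symm
  set d : ℕ := 4 * j + 1 with hd
  have hdn : d * n = p + 1 := by
    rw [hpj, hd]
    have : (4 * j + 1) * n = 4 * n * j + n := by ring
    rw [this]
    omega
  have hp4 : p % 4 = 1 := by
    have h1 : 4 * n * j = 4 * (n * j) := by ring
    rw [hpj, h1]
    omega
  have hd4 : d % 4 = 1 := by omega
  have hpodd : Odd p := Nat.odd_iff.2 (by omega)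
  have hdodd : Odd d := Nat.odd_iff.2 (by omega)
  haveI : Fact p.Prime := ⟨hp⟩
  have hJ : jacobiSym (-(d : ℤ)) p = 1 := by
    rw [jacobiSym.neg _ hpodd, ZMod.χ₄_nat_one_mod_four hp4, one_mul,
      jacobiSym.quadratic_reciprocity_one_mod_four hd4 hpodd, jacobiSym.mod_left]
    have h1 : (p : ℤ) % (d : ℤ) = (-1) % (d : ℤ) := by
      apply Int.emod_emod_of_dvd _ (dvd_refl _) |>.symm.trans
      have h2 : (p : ℤ) = -1 + d * n := by
        have : (d : ℤ) * n = p + 1 := by exact_mod_cast hdn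
        linarith
      rw [h2, Int.add_mul_emod_self_left]
      simp
    rw [h1, ← jacobiSym.mod_left, jacobiSym.at_neg_one hdodd, ZMod.χ₄_nat_one_mod_four hd4]
  have hsq := ZMod.isSquare_of_jacobiSym_eq_one hJ
  obtain ⟨y, hy⟩ := hsq
  obtain ⟨x, rfl⟩ := ZMod.intCast_surjective y
  refine hTQR n d x (by exact_mod_cast hn2) (by positivity) ?_
  have h3 : (d : ℤ) * n - 1 = (p : ℤ) := by
    have : (d : ℤ) * n = p + 1 := by exact_mod_cast hdn
    linarith
  rw [h3]
  apply (ZMod.intCast_zmod_eq_zero_iff_dvd _ _).1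
  push_cast at hy ⊢
  linear_combination -hy

end Pool.Agent.SU
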